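import Pool.Agent.Lib.MP_afd87c_lc.BC.Stm2

/-!
# Bundled crossings: assembly
-/

set_option autoImplicit false

namespace Pool.Agent.MPafd87c

open N68a2faeb CookLevin

/-- the theorem on the graphs `G` with a vertex adjacent to all -/
def Structural : Prop :=
  ∀ {V : Type} [Fintype V] (G : SimpleGraph V) (z : V) (m : ℕ), Hyp G z m →
    (∀ (D : Layout G) (k : ℕ), D.BcLe k → m ≤ 2 * k) ∧
    ∀ k, m = 2 * k → ((∃ D : Layout G, D.BcLe k) ↔ HP G z) ∧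
      ((∃ D : Layout G, D.Straight ∧ D.BcLe k) ↔ HP G z)

theorem structural (hlow : S_LOW) (hupp : S_UPP) : Structural := by
  intro V _ G z m h
  refine ⟨fun D k hk => (hlow G z m h D k hk).1, fun k hk => ⟨⟨?_, ?_⟩, ⟨?_, ?_⟩⟩⟩
  · rintro ⟨D, hD⟩
    exact (hlow G z m h D k hD).2 hk
  · intro hp
    subst hk
    obtain ⟨D, -, hD⟩ := hupp G z k h hp
    exact ⟨D, hD⟩
  · rintro ⟨D, -, hD⟩
    exact (hlow G z m h D k hD).2 hk
  · intro hp
    subst hk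
    exact hupp G z k h hp

theorem asm (hlow : S_LOW) (hupp : S_UPP) (htrf : S_TRF) (hok : S_OK) (hno : S_NO)
    (hyc : S_YESC) (hyp : S_YESP) (hx : S_X3F) (hfp : S_FP) : BundledCrossingsNPHard := by
  intro L hL
  obtain ⟨f, hf, h0, hne, hS⟩ := cook_levin hL
  obtain ⟨hf1, hf2⟩ := hfp f hf
  refine ⟨_, _, hf1, hf2, fun x => ?_⟩
  obtain ⟨hI, hsol⟩ := hx (f x) (h0 x) (hne x)
  obtain ⟨hL1, hL2, hL3, hL4, hL5⟩ := hok (x3 (f x)) hI
  obtain ⟨z, -, hH, hP⟩ := htrf _ _ _ _ hL1 hL2 hL3 hL4 hL5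
  have hfin : Finite {v : ℕ // ∃ e ∈ lst (x3 (f x)).vs (x3 (f x)).nb code, v = e.1 ∨ v = e.2} := by
    refine Set.Finite.subset (s := {v | v ∈ (lst (x3 (f x)).vs (x3 (f x)).nb code).map Prod.fst ++
      (lst (x3 (f x)).vs (x3 (f x)).nb code).map Prod.snd}) (List.finite_toSet _) ?_
    rintro v ⟨e, he, h | h⟩
    · simp only [Set.mem_setOf_eq, List.mem_append, List.mem_map]
      exact Or.inl ⟨e, he, h.symm⟩
    · simp only [Set.mem_setOf_eq, List.mem_append, List.mem_map]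
      exact Or.inr ⟨e, he, h.symm⟩
  have : Fintype {v : ℕ // ∃ e ∈ lst (x3 (f x)).vs (x3 (f x)).nb code, v = e.1 ∨ v = e.2} :=
    Fintype.ofFinite _
  obtain ⟨-, hst⟩ := structural hlow hupp _ z _ hH
  have hLP : L x = true ↔ HP (gr (lst (x3 (f x)).vs (x3 (f x)).nb code)) z := by
    rw [hS x, ← hsol, hP]
    constructor
    · rintro ⟨v, hv⟩
      exact ⟨pth (x3 (f x)) v, hyp _ hI v hv, hyc _ hI v hv⟩
    · rintro ⟨l, hl, hc⟩
      exact hno _ hI l hl hc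
  obtain ⟨h1, h2⟩ := hst _ rfl
  exact ⟨hLP.trans h1.symm, hLP.trans h2.symm⟩

end Pool.Agent.MPafd87c
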