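import Mathlib

/-!
# Simple circular layouts and bundled crossings (MP_afd87c_lc)
-/

set_option autoImplicit false

namespace Pool.Agent.MPafd87c

open Metric

/-- A simple circular layout of `G`. The vertices are distinct points of the unit circle, every
edge is an arc which runs inside the open unit disk. Two edges have at most one common point in
the open disk, adjacent edges have none, at a common point the edges cross (the ends of the second
edge are on different sides of the first one, that is, no connected subset of the closed disk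
without the first edge contains both), and there is no common point of three edges. -/
structure Layout {V : Type} (G : SimpleGraph V) where
  /-- the points of the vertices -/
  pt : V → ℂ
  /-- the curves of the edges -/
  cur : Sym2 V → Set ℂ
  norm_pt : ∀ v, ‖pt v‖ = 1
  inj : Function.Injective pt
  arc : ∀ u v, G.Adj u v → ∃ γ : unitInterval → ℂ, Continuous γ ∧ Function.Injective γ ∧
    γ 0 = pt u ∧ γ 1 = pt v ∧ Set.range γ = cur s(u, v) ∧ ∀ t, t ≠ 0 → t ≠ 1 → ‖γ t‖ < 1
  once : ∀ e ∈ G.edgeSet, ∀ f ∈ G.edgeSet, e ≠ f →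
    (cur e ∩ cur f ∩ ball 0 1).Subsingleton
  adj : ∀ e ∈ G.edgeSet, ∀ f ∈ G.edgeSet, e ≠ f → (∃ v, v ∈ e ∧ v ∈ f) →
    cur e ∩ cur f ∩ ball 0 1 = ∅
  cross : ∀ e ∈ G.edgeSet, ∀ u v, G.Adj u v → e ≠ s(u, v) →
    (cur e ∩ cur s(u, v) ∩ ball 0 1).Nonempty →
    ¬ ∃ K : Set ℂ, K ⊆ closedBall 0 1 \ cur e ∧ IsPreconnected K ∧ pt u ∈ K ∧ pt v ∈ K
  three : ∀ e ∈ G.edgeSet, ∀ f ∈ G.edgeSet, ∀ g ∈ G.edgeSet, e ≠ f → e ≠ g → f ≠ g →
    cur e ∩ cur f ∩ cur g ∩ ball 0 1 = ∅

namespace Layout

variable {V : Type} {G : SimpleGraph V} (D : Layout G)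

/-- the edges `e` and `f` cross at the point `p` -/
def CrossAt (e f : Sym2 V) (p : ℂ) : Prop :=
  e ∈ G.edgeSet ∧ f ∈ G.edgeSet ∧ e ≠ f ∧ p ∈ D.cur e ∧ p ∈ D.cur f ∧ ‖p‖ < 1

/-- the edges `e` and `f` cross -/
def Cross (e f : Sym2 V) : Prop := ∃ p, D.CrossAt e f p

/-- `P` and `Q` are the bundles of a bundled crossing: every edge of `P` crosses every edge of `Q`,
and there is a closed topological disk `R` such that every edge meets `R` in a connected set
(pseudodisk), only the edges of the bundles meet `R`, and the crossings in `R` are exactly the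
crossings of an edge of `P` and an edge of `Q`. -/
def IsBundled (P Q : Set (Sym2 V)) : Prop :=
  P ⊆ G.edgeSet ∧ Q ⊆ G.edgeSet ∧ Disjoint P Q ∧ (∀ e ∈ P, ∀ f ∈ Q, D.Cross e f) ∧
  ∃ R : Set ℂ, (∃ h : ℂ ≃ₜ ℂ, h '' closedBall 0 1 = R) ∧
    (∀ e ∈ G.edgeSet, IsPreconnected (D.cur e ∩ R)) ∧
    (∀ e ∈ G.edgeSet, (D.cur e ∩ R).Nonempty → e ∈ P ∪ Q) ∧
    ∀ e f p, D.CrossAt e f p → (p ∈ R ↔ (e ∈ P ∧ f ∈ Q) ∨ (f ∈ P ∧ e ∈ Q))

/-- The crossings can be partitioned into at most `k` bundled crossings. -/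
def BcLe (k : ℕ) : Prop :=
  ∃ P Q : Fin k → Set (Sym2 V), (∀ i, D.IsBundled (P i) (Q i)) ∧
    ∀ e f, D.Cross e f → ∃! i, (e ∈ P i ∧ f ∈ Q i) ∨ (f ∈ P i ∧ e ∈ Q i)

/-- All edges are straight line segments. -/
def Straight : Prop := ∀ u v, G.Adj u v → D.cur s(u, v) = segment ℝ (D.pt u) (D.pt v)

end Layout

/-- The graph with the list of edges `L`; its vertices are the numbers which occur in the list. -/
def gr (L : List (ℕ × ℕ)) : SimpleGraph {v : ℕ // ∃ e ∈ L, v = e.1 ∨ v = e.2} where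
  Adj u v := u ≠ v ∧ ((u.1, v.1) ∈ L ∨ (v.1, u.1) ∈ L)
  symm := ⟨fun _ _ h => ⟨h.1.symm, h.2.symm⟩⟩
  loopless := ⟨fun u h => h.1 rfl⟩

/-- `G - z` has a Hamiltonian path. -/
def HP {V : Type} (G : SimpleGraph V) (z : V) : Prop :=
  ∃ l : List V, l.Nodup ∧ (∀ v, v ∈ l ↔ v ≠ z) ∧ l.IsChain G.Adj

/-- `z` is adjacent to all other vertices; in `G - z` all degrees are `1`, `2` or `3`, there are
exactly two vertices of degree `1` and exactly `m` vertices of degree `3`. (The degrees in `G` are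
larger by one.) -/
structure Hyp {V : Type} (G : SimpleGraph V) (z : V) (m : ℕ) : Prop where
  univ : ∀ v, v ≠ z → G.Adj z v
  deg : ∀ v, v ≠ z → 2 ≤ (G.neighborSet v).ncard ∧ (G.neighborSet v).ncard ≤ 4
  leaves : {v | v ≠ z ∧ (G.neighborSet v).ncard = 2}.ncard = 2
  three : {v | v ≠ z ∧ (G.neighborSet v).ncard = 4}.ncard = m

/-! ### Alternating pairs of edges -/

/-- the edges `e` and `f` alternate, `e` is first -/
def Alt {V : Type} (pos : V → ℝ) (e f : Sym2 V) : Prop :=
  ∃ a b c d, e = s(a, b) ∧ f = s(c, d) ∧ pos a < pos c ∧ pos c < pos b ∧ pos b < pos d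

/-- the alternating pairs of edges are partitioned into `k` complete bipartite sets -/
def BP {V : Type} (G : SimpleGraph V) (pos : V → ℝ) (k : ℕ) : Prop :=
  ∃ P Q : Fin k → Set (Sym2 V),
    (∀ i, ∀ e ∈ P i, ∀ f ∈ Q i, e ∈ G.edgeSet ∧ f ∈ G.edgeSet ∧ (Alt pos e f ∨ Alt pos f e)) ∧
    ∀ e ∈ G.edgeSet, ∀ f ∈ G.edgeSet, Alt pos e f →
      ∃! i, (e ∈ P i ∧ f ∈ Q i) ∨ (f ∈ P i ∧ e ∈ Q i)

/-! ### Chords -/

/-- chords of the points `0, ..., n - 1` -/
structure Ch (n : ℕ) (E : Finset (ℕ × ℕ)) : Prop where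
  lt : ∀ e ∈ E, e.1 < e.2
  le : ∀ e ∈ E, e.2 < n

/-- crossing of two chords -/
def cr (e f : ℕ × ℕ) : ℝ :=
  if (e.1 < f.1 ∧ f.1 < e.2 ∧ e.2 < f.2) ∨ (f.1 < e.1 ∧ e.1 < f.2 ∧ f.2 < e.2) then 1 else 0

/-- the difference of two consecutive columns of the incidence matrix of chords and points -/
def dd (g : ℕ) (e : ℕ × ℕ) : ℝ := (if e.1 = g then 1 else 0) - (if e.2 = g + 1 then 1 else 0)

/-- the gaps `g` such that a chord `(i, g + 1)` with `i < g` exists -/
def II (n : ℕ) (E : Finset (ℕ × ℕ)) : Finset ℕ :=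
  (Finset.range n).filter fun g => ∃ e ∈ E, e.2 = g + 1 ∧ e.1 < g

/-- the gaps `g` such that a chord `(g, j)` with `g + 1 < j` exists -/
def OO (n : ℕ) (E : Finset (ℕ × ℕ)) : Finset ℕ :=
  (Finset.range n).filter fun g => ∃ e ∈ E, e.1 = g ∧ g + 1 < e.2

/-- the degree of the point `v` -/
def dg (E : Finset (ℕ × ℕ)) (v : ℕ) : ℕ :=
  (E.filter fun e => e.1 = v).card + (E.filter fun e => e.2 = v).card

/-- The factorization given by a partition of the crossings of the chords and of the star: `t b w`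
says that the star edge to `w` is in the part `b`, `c b e` that `e` is on the side of the stars,
`a b e` that it is on the other side. -/
structure Fac (n : ℕ) (E : Finset (ℕ × ℕ)) {k : ℕ} (a c : Fin k → ℕ × ℕ → ℝ)
    (t : Fin k → ℕ → ℝ) : Prop where
  star : ∀ e ∈ E, ∀ w < n, (if e.1 < w ∧ w < e.2 then 1 else 0) = ∑ b, a b e * t b w
  cross : ∀ e ∈ E, ∀ f ∈ E, cr e f = ∑ b, (a b e * c b f + c b e * a b f)

/-! ### Straight line drawings: projective image of a parabola -/

/-- the point of the disk with the parabola coordinates `(t, y)` -/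
noncomputable def psi (t y : ℝ) : ℂ := ⟨(1 - y) / (1 + y), 2 * t / (1 + y)⟩

/-- a point of the circle -/
noncomputable def pp (x : ℝ) : ℂ := psi x (x * x)

/-- the point with the first coordinate `t` of the chord from `pp a` to `pp b` -/
noncomputable def cp (a b t : ℝ) : ℂ := psi t ((a + b) * t - a * b)

/-- vanishes if and only if the chords `ab`, `cd`, `ef` are concurrent (or parallel) -/
def conc (a b c d e f : ℝ) : ℝ :=
  f * ((e - a) * (e - b) - (e - c) * (e - d)) +
    (e * (a * b - c * d) + (a + b) * (c * d) - a * b * (c + d))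

/-! ### The graph of a system of triples of literals -/

/-- The vertices of the graph without the vertex adjacent to all. -/
inductive Tk
  | s
  | e
  | A (i : ℕ)
  | B (i : ℕ)
  | m (i : ℕ)
  | X (j : ℕ)
  | Y (j : ℕ)
  | w (j : ℕ)
  | a (j : ℕ)
  | b (j : ℕ)
  | c (j : ℕ)
  | d (j : ℕ)
  | r (t k : ℕ)
  | x (t k : ℕ)
  | y (t k : ℕ)
  deriving DecidableEq

/-- `M` triples of literals with `N` variables; the literals of the triple `j` are the entries
`3 * j`, `3 * j + 1`, `3 * j + 2` of `lit`. -/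
structure X3 where
  N : ℕ
  M : ℕ
  lit : List (ℕ × Bool)

namespace X3

/-- the literal at a slot -/
def at' (I : X3) (t : ℕ) : ℕ × Bool := I.lit.getD t (0, true)

/-- well-formed: every literal occurs -/
structure Ok (I : X3) : Prop where
  N_pos : 0 < I.N
  M_pos : 0 < I.M
  len : I.lit.length = 3 * I.M
  lt : ∀ t < 3 * I.M, (I.at' t).1 < I.N
  occ : ∀ i < I.N, ∀ b : Bool, ∃ t < 3 * I.M, I.at' t = (i, b)

/-- a solution: exactly one literal of every triple is true -/
def Sol (I : X3) (v : ℕ → Bool) : Prop :=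
  ∀ j < I.M, ∃! r, r < 3 ∧ v (I.at' (3 * j + r)).1 = (I.at' (3 * j + r)).2

/-- the slots below `n` with the literal `l` -/
def oc (I : X3) (n : ℕ) (l : ℕ × Bool) : List ℕ := (List.range n).filter fun t => I.at' t = l

/-- the slots after `t` with the same literal -/
def oa (I : X3) (t : ℕ) : List ℕ :=
  (List.range (3 * I.M)).filter fun t' => t < t' ∧ I.at' t' = I.at' t

/-- the first slot of a literal -/
def fst (I : X3) (l : ℕ × Bool) : ℕ := (I.oc (3 * I.M) l).getD 0 0

/-- the last slot of a literal -/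
def lst (I : X3) (l : ℕ × Bool) : ℕ :=
  (I.oc (3 * I.M) l).getD ((I.oc (3 * I.M) l).length - 1) 0

/-- the vertex before the ladder `t` on its route -/
def prv (I : X3) (t : ℕ) : Tk :=
  if (I.oc t (I.at' t)).length = 0 then .A (I.at' t).1
  else .x ((I.oc t (I.at' t)).getD ((I.oc t (I.at' t)).length - 1) 0) 3

/-- the vertex after the ladder `t` on its route -/
def nxt (I : X3) (t : ℕ) : Tk :=
  if (I.oa t).length = 0 then .B (I.at' t).1 else .x ((I.oa t).getD 0 0) 0

/-- the lists of neighbours -/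
def nb (I : X3) : Tk → List Tk
  | .s => [.A 0]
  | .e => [.w (I.M - 1)]
  | .A i => [if i = 0 then .s else .m (i - 1), .x (I.fst (i, true)) 0, .x (I.fst (i, false)) 0]
  | .B i => [.m i, .x (I.lst (i, true)) 3, .x (I.lst (i, false)) 3]
  | .m i => [.B i, if i + 1 < I.N then .A (i + 1) else .X 0]
  | .X j => [if j = 0 then .m (I.N - 1) else .w (j - 1), .y (3 * j) 3, .d j]
  | .Y j => [.a j, .b j, .w j]
  | .w j => [.Y j, if j + 1 < I.M then .X (j + 1) else .e]
  | .a j => [.y (3 * j + 1) 3, .Y j, .d j]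
  | .b j => [.y (3 * j + 2) 3, .Y j, .d j]
  | .c j => [.y (3 * j) 0, .y (3 * j + 1) 0, .y (3 * j + 2) 0]
  | .d j => [.X j, .a j, .b j]
  | .r t k => [.x t k, .y t k]
  | .x t k => [if k = 0 then I.prv t else .x t (k - 1), if k = 3 then I.nxt t else .x t (k + 1),
      .r t k]
  | .y t k => [if k = 0 then .c (t / 3) else .y t (k - 1),
      if k = 3 then (if t % 3 = 0 then .X (t / 3) else if t % 3 = 1 then .a (t / 3)
        else .b (t / 3)) else .y t (k + 1), .r t k]

/-- the list of all vertices -/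
def vs (I : X3) : List Tk :=
  [.s] ++ (List.range I.N).flatMap (fun i => [.A i, .B i, .m i]) ++
    (List.range I.M).flatMap (fun j => [.X j, .Y j, .w j, .a j, .b j, .c j, .d j]) ++
    (List.range (3 * I.M)).flatMap (fun t => (List.range 4).flatMap fun k =>
      [.r t k, .x t k, .y t k]) ++ [.e]

end X3

/-- the numbers of the vertices; `0` is the vertex adjacent to all -/
def code : Tk → ℕ
  | .s => 1
  | .e => 2
  | .A i => 16 * i + 3
  | .B i => 16 * i + 4
  | .m i => 16 * i + 5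
  | .X j => 16 * j + 6
  | .Y j => 16 * j + 7
  | .w j => 16 * j + 8
  | .a j => 16 * j + 9
  | .b j => 16 * j + 10
  | .c j => 16 * j + 11
  | .d j => 16 * j + 12
  | .r t k => 16 * (4 * t + k) + 13
  | .x t k => 16 * (4 * t + k) + 14
  | .y t k => 16 * (4 * t + k) + 15

/-- the list of edges of the graph with the additional vertex `0` adjacent to all -/
def lst {T : Type} (vs : List T) (nb : T → List T) (code : T → ℕ) : List (ℕ × ℕ) :=
  vs.flatMap fun u => (0, code u) :: (nb u).map fun v => (code u, code v)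

end Pool.Agent.MPafd87c
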