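import Pool.Agent.Lib.MP_afd87c_lc.BC.Defs

/-!
# Bundled crossings in simple circular layouts is NP-hard: statements, with proofs in words

THEOREM. Let `H = G - z`, `z` adjacent to all vertices of `H`, all degrees of `H` in `{1, 2, 3}`,
exactly two vertices of degree 1, `m` vertices of degree 3. Every simple circular layout of `G` has
at least `m / 2` bundled crossings, and there is one with `m / 2` if and only if `H` has a
Hamiltonian path.

* Part T (topology): two edges cross if and only if their ends alternate (`S_MEET`, `S_TOP`).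
* Part A (lower bound, linear algebra): `S_FAC`, `S_DIM`, `S_FLW`, `S_CNT`, `S_LOW`.
* Part B (upper bound, a straight line drawing): `S_PSI`, `S_MT`, `S_STR`, `S_REG`, `S_POS`,
  `S_ORD`, `S_HSK`, `S_UPP`.
* Part C (Hamiltonian path is NP-hard for these graphs): `S_TRF`, `S_OK`, `S_PTH`, `S_NO`,
  `S_YESC`, `S_YESP`, and `S_X3F`, `S_FP` in `Stm2.lean`.
-/

set_option autoImplicit false

namespace Pool.Agent.MPafd87c

open Metric

/-! ### Part T -/

/-- **(MEET)** Two paths in the disk which join alternating points of the circle meet.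

Proof. Targets `τ = -π, -π/2, 0, π/2` for `p, q, r, s`. Extend `γ` to `Γ : [-1, 2] → ℂ`,
`Γ(x) = (1 - x) exp(i((1 + x) p + (- x) (-π)))` for `x ≤ 0`, `Γ(x) = γ(x)` on `[0, 1]`,
`Γ(x) = x exp(i((2 - x) r + (x - 1) 0))` for `x ≥ 1`; it runs from `-2` to `2` in the disk of radius
`2`. In the same way `Δ` for `δ` with `q, s` and the targets `-π/2`, `π/2`, from `-2i` to `2i`.
`Γ(x) = Δ(y)` for some `x, y`: Poincare-Miranda for `Φ(x, y) = (Re Γ(x) - Re Δ(y),
-(Im Γ(x) - Im Δ(y)))`, signs on the boundary of `[-1, 2]²`: `Re Γ(-1) = -2 < Re Δ(y)`,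
`Re Γ(2) = 2 > Re Δ(y)`, `Im Δ(-1) = -2 < Im Γ(x)`, `Im Δ(2) = 2 > Im Γ(x)` (norms are `≤ 2`, and `2`
only at the ends). The strict Poincare-Miranda theorem in dimension 3 is
`Pool.Agent.Lib.MP_b2c03c_co.poincare_miranda` (Lib/MP_b2c03c_co/Miranda.lean, may be imported; take
a third coordinate `x₃ - 1/2`; extend `Γ`, `Δ` continuously to the line by clamping).
Let `Γ(x) = Δ(y)`. If its norm is `ρ > 1` both points are on the outer parts with the same
`λ = ρ - 1 ∈ (0, 1]`, their angles are `(1 - λ) p_i + λ τ_i`, `i ∈ {p, r}`, and the same for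
`{q, s}`; the difference of the angles is not `0` and less than `2π` in absolute value because
`p < q < r < s < p + 2π` and the same for the targets: contradiction. If the norm is `≤ 1` the
points are `γ(x)`, `δ(y)` (for norm `1` use that the outer parts start at `x = 0` or `x = 1`). -/
def S_MEET : Prop := ∀ p q r s : ℝ, p < q → q < r → r < s → s < p + 2 * Real.pi →
  ∀ γ δ : unitInterval → ℂ, Continuous γ → Continuous δ → (∀ t, ‖γ t‖ ≤ 1) → (∀ t, ‖δ t‖ ≤ 1) →
  γ 0 = Complex.exp (p * Complex.I) → γ 1 = Complex.exp (r * Complex.I) →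
  δ 0 = Complex.exp (q * Complex.I) → δ 1 = Complex.exp (s * Complex.I) → ∃ t u, γ t = δ u

/-- **(TOP)** In a simple circular layout two edges cross if and only if their ends alternate.
(Uses `S_MEET`.)

Proof. `pos z = -π` and `pos v = arg (- pt v / pt z)` for `v ≠ z`; then
`pt v = - pt z * exp(i pos v)` for all `v`, `pos v ∈ (-π, π)` for `v ≠ z` (`arg = π` only for a
negative real number, that is, for `pt v = pt z`). Let `e = ab`, `f = cd` be edges. If
`pos a < pos c < pos b < pos d`: the two arcs (multiplied by a constant) meet by `S_MEET` at a point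
`γ t = δ u`; it is in the open disk, since otherwise it would be an end of both edges, but the four
ends are distinct. So `Cross e f`. Conversely let `e ≠ f` be edges which meet in the open disk. They
have no common end (`adj`), so the four positions are distinct. Let `pos a < pos b` for `e = ab`. If
they do not alternate, both ends `c, d` of `f` are in `{v | pos a < pos v < pos b}` or both are not
in this interval. In the first case `K = {- pt z exp(iθ) | pos a < θ < pos b}`, in the second case
`K = {- pt z exp(iθ) | pos b < θ < pos a + 2π}` is a connected set (image of an interval) which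
contains `pt c`, `pt d` (use `exp(i(θ + 2π)) = exp(iθ)`), and `K ∩ cur e = ∅` because the only
points of `cur e` on the circle are `pt a`, `pt b`. This contradicts `cross`. -/
def S_TOP : Prop := ∀ {V : Type} {G : SimpleGraph V} (D : Layout G) (z : V),
  ∃ pos : V → ℝ, Function.Injective pos ∧ (∀ v, v ≠ z → pos z < pos v) ∧
  ∀ e f, D.Cross e f ↔ e ∈ G.edgeSet ∧ f ∈ G.edgeSet ∧ (Alt pos e f ∨ Alt pos f e)

/-! ### Part A -/

/-- **(FAC)** The numbering of the vertices and the factorization.

Proof. `n` is the number of vertices `≠ z`, `σ` lists them in the order of `pos` (e.g. from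
`Finset.orderEmbOfFin` or by sorting), `E = {(i, j) | i < j < n, σ i ~ σ j}`. Let `P b`, `Q b` be
the partition. Two star edges `zv`, `zw` never alternate (the common vertex would have to be two
different ones), so for every `b` the stars in `P b ∪ Q b` are all in `P b` or all in `Q b`. Let
`S b` be the one of `P b`, `Q b` which contains a star (`Q b` if none does), `T b` the other one;
`a b (i, j) = 1` if `σ i σ j ∈ T b` (else `0`), `c b (i, j) = 1` if `σ i σ j ∈ S b`,
`t b w = 1` if the star `z σ w` is in `S b` and `P b`, `Q b` contain a star, else `0`. star: the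
chord `(i, j)` and the star to `w` alternate if and only if `i < w < j`; if they do, exactly one `b`
has one of them in `P b` and the other one in `Q b`, i.e. chord in `T b`, star in `S b`; if they do
not, no `b`. cross: chords `e, f` alternate if and only if `cr e f = 1`; then exactly one `b` has
`e ∈ T b, f ∈ S b` or `e ∈ S b, f ∈ T b` (not both, since then `e` would be in `P b` and in `Q b`
and alternate with itself); otherwise no `b`. -/
def S_FAC : Prop := ∀ {V : Type} [Fintype V] (G : SimpleGraph V) (z : V) (pos : V → ℝ),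
  Function.Injective pos → (∀ v, v ≠ z → pos z < pos v) → (∀ v, v ≠ z → G.Adj z v) →
  ∃ (n : ℕ) (σ : ℕ → V) (E : Finset (ℕ × ℕ)), Ch n E ∧ (∀ i < n, σ i ≠ z) ∧
  (∀ i < n, ∀ j < n, σ i = σ j → i = j) ∧ (∀ v, v ≠ z → ∃ i < n, σ i = v) ∧
  (∀ i j, (i, j) ∈ E ↔ i < j ∧ j < n ∧ G.Adj (σ i) (σ j)) ∧
  ∀ k, BP G pos k → ∃ (a c : Fin k → ℕ × ℕ → ℝ) (t : Fin k → ℕ → ℝ), Fac n E a c t

/-- **(DIM)** The dimension argument.

Proof. For `g + 1 < n` and `e ∈ E`: `dd g e = [e.1 < g+1 < e.2] - [e.1 < g < e.2]`
(`e.1 < e.2`), so by `star` (D) `dd g e = ∑ b, a b e * (t b (g+1) - t b g)`.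
(1) The functions `dd g`, `g ∈ II n E`, on `E` are linearly independent: for `g ∈ II` let
`e_g = (i_g, g+1) ∈ E`, `i_g < g`; `dd g e_g = -1`, and for `g' ≠ g` `dd g' e_g = [i_g = g']`, which
is `0` unless `g' < g`. If `∑ c_g dd g = 0` on `E` and `g` is minimal with `c_g ≠ 0`, evaluate at
`e_g`. (2) The same for `OO n E`: `e_g = (g, j_g)`, `g + 1 < j_g`, `dd g e_g = 1`,
`dd g' e_g = - [j_g = g' + 1]`, which is `0` unless `g' > g`; take the largest `g` with `c_g ≠ 0`.
(3) For `J = II` or `OO` the linear map `ℝ^J → ℝ^k`, `c ↦ (∑_{g ∈ J} c_g (t b (g+1) - t b g))_b` is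
injective by (D) and (1), (2), so `|J| ≤ k`. (4) If `|II| = k` it is surjective, so every `a b` is on
`E` a linear combination of the `dd g`, `g ∈ II`. So if `∑ κ e * dd g e = 0` for all `g ∈ II` then
`∑ κ e * a b e = 0` for all `b`, hence `∑ κ e * dd h e = 0` for all `h + 1 < n` by (D), and
`∑∑ κ e κ f cr e f = 2 ∑_b (∑ κ e a b e) (∑ κ f c b f) = 0` by `cross`. -/
def S_DIM : Prop := ∀ (n k : ℕ) (E : Finset (ℕ × ℕ)) (a c : Fin k → ℕ × ℕ → ℝ)
  (t : Fin k → ℕ → ℝ), Ch n E → Fac n E a c t →
  (II n E).card ≤ k ∧ (OO n E).card ≤ k ∧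
  ((II n E).card = k → ∀ κ : ℕ × ℕ → ℝ, (∀ g ∈ II n E, ∑ e ∈ E, κ e * dd g e = 0) →
    (∀ g, g + 1 < n → ∑ e ∈ E, κ e * dd g e = 0) ∧
    ∑ e ∈ E, ∑ f ∈ E, κ e * κ f * cr e f = 0)

/-- **(FLW)** The contradiction from two chords `(a, g+1)`, `(b, g+1)`, `a < b < g`.

Proof. View `e = (i, j)` as an arc from `p e = i` to `q e = j - 1` (`p ≤ q`); `∑ κ e dd h e` is the
net outflow of `κ` at `h` (`j = h + 1` iff `q = h`). For every `u ∈ II n E` choose a parent edge
`e_u = (i_u, u + 1) ∈ E`, `i_u < u`: an arc from `i_u` to `u`. By strong induction on `u` there is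
for every `u` a list `P(u)` of chords of `E` with `p < q`, such that (i) consecutive arcs, and hence
all pairs, satisfy `q ≤ p'` (earlier, later), all `q ≤ u`; (ii) the net outflow of
`∑_{e ∈ P(u)} 1_e` at every `h ∈ II n E` is `- [h = u]` (if `u ∈ II`: `P(u) = P(i_u) ++ [e_u]`, the
outflow at `i_u` is `1 - 1` or `i_u ∉ II`; otherwise `P(u) = []`; in both cases at `h ∈ II`).
Let `A = P(a) ++ [(a, g+1)]`, `B = P(b) ++ [(b, g+1)]`, `κ = ∑_{e ∈ A} 1_e - ∑_{e ∈ B} 1_e`. The net
outflow of `κ` at `h ∈ II` is `- [h = g] + [h = g] = 0`. Now assume that it is `0` for all `h`,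
`h + 1 < n`. For `p ≤ q` let `F(p, q) = ∑_{p e < p, q ≤ q e} κ e`. Then
`F(p, p) = ∑_{h < p} outflow(h) = 0`. With `x(e, f) = [p e < p f ≤ q e < q f]` one has
`cr e f = x(e, f) + x(f, e)` and `∑_e κ e x(e, f) = F(p f, p f) - F(p f, q f) = - F(p f, q f)`. So
`½ ∑∑ κ e κ f cr e f = - ∑_f κ f F(p f, q f) = - ∑_f ∑_e κ f κ e [p e < p f, q f ≤ q e]`. Expand
`κ = A - B` (sums over the lists). In one list there are no `e, f` with `p e < p f`, `q f ≤ q e`
((i), and `p f < q f`). So the value is
`∑_{f ∈ A, e ∈ B} [p e < p f, q f ≤ q e] + ∑_{f ∈ B, e ∈ A} [p e < p f, q f ≤ q e] ≥ 1`: the second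
sum contains `f = (b, g+1)`, `e = (a, g+1)`. -/
def S_FLW : Prop := ∀ (n : ℕ) (E : Finset (ℕ × ℕ)), Ch n E → ∀ a b g : ℕ, a < b → b < g →
  (a, g + 1) ∈ E → (b, g + 1) ∈ E → ∃ κ : ℕ × ℕ → ℝ,
  (∀ h ∈ II n E, ∑ e ∈ E, κ e * dd h e = 0) ∧
  ((∀ h, h + 1 < n → ∑ e ∈ E, κ e * dd h e = 0) →
    ∑ e ∈ E, ∑ f ∈ E, κ e * κ f * cr e f ≠ 0)

/-- **(CNT)** The counting argument.

Proof. `l v`, `r v` the numbers of left and right neighbours, `dg v = l v + r v`. If `l v ≥ 2` then
`v - 1 ∈ II` (two left neighbours, one of them is not `v - 1`), if `r v ≥ 2` then `v ∈ OO`. A vertex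
of degree 3 has `l ≥ 2` or `r ≥ 2`, and not both. So `m = #{dg = 3}` satisfies
`m + #{dg v = 2, l v = 2 or r v = 2} ≤ #{l ≥ 2} + #{r ≥ 2} ≤ |II| + |OO| ≤ 2 k`.
Let `m = 2 k` and assume the last hypothesis `hin` (no two chords `(a, g+1)`, `(b, g+1)` with
`a < b < g`). Then `|II| = |OO| = k`, `II = {v - 1 : l v ≥ 2}`, `OO = {v : r v ≥ 2}`, and a vertex
of degree 2 has `l = r = 1`. Let `in v` (`out v`) be the number of left (right) neighbours of `v`
which are not `v - 1` (`v + 1`). `in v ≤ 1` by `hin`, `in v ≥ 1` iff `v - 1 ∈ II`, so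
`∑ out v = ∑ in v = |II| = k = |OO|`, and `out v ≥ 1` iff `v ∈ OO`: so `out v ≤ 1`. Hence
`v - 1 ∈ II` implies `l v = 2` and `(v-1, v) ∈ E`, `v ∈ OO` implies `(v, v+1) ∈ E`. Suppose
`(v, v+1) ∉ E`, `v + 1 < n`. Then `v ∉ OO`, `r v = 0`, and `v ∉ II`, `l (v+1) = 0`. `l v ≤ 2`, and
`dg v = 2` is impossible (`r v = 0`), so `dg v = 1`, similarly `dg (v+1) = 1`. Also `dg 0 = 1`
(`l 0 = 0`, `r 0 ≤ 2`) and `dg (n-1) = 1`. As there are exactly two vertices of degree 1,
`{0, n-1} = {v, v+1}`, `v = 0`, `n = 2`, `dg 0 = l 0 + r 0 = 0`: contradiction. -/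
def S_CNT : Prop := ∀ (n k : ℕ) (E : Finset (ℕ × ℕ)), Ch n E →
  (∀ v < n, 1 ≤ dg E v ∧ dg E v ≤ 3) →
  ((Finset.range n).filter fun v => dg E v = 1).card = 2 →
  (II n E).card ≤ k → (OO n E).card ≤ k →
  ((Finset.range n).filter fun v => dg E v = 3).card ≤ 2 * k ∧
  (((Finset.range n).filter fun v => dg E v = 3).card = 2 * k →
    ((II n E).card = k → ∀ a b g : ℕ, a < b → b < g → (a, g + 1) ∈ E → (b, g + 1) ∉ E) →
    ∀ v, v + 1 < n → (v, v + 1) ∈ E)

/-- **(LOW)** The lower bound. (Uses `S_TOP`, `S_FAC`, `S_DIM`, `S_FLW`, `S_CNT`.)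

Proof. `pos` from `S_TOP`; `D.BcLe k` gives `BP G pos k` (bundled crossings give `Cross`, which is
`Alt`). `n`, `σ`, `E`, `a`, `c`, `t` from `S_FAC`. `S_DIM`: `|II|, |OO| ≤ k`. For `i < n` the
neighbours of `σ i` are `z` and the `σ j` with `(i, j) ∈ E` or `(j, i) ∈ E`, so
`(G.neighborSet (σ i)).ncard = dg E i + 1`; so `Hyp` gives the hypotheses of `S_CNT` with
`m = #{dg = 3}`, and `m ≤ 2 k`. If `m = 2 k`: the last hypothesis of `S_CNT` holds by `S_DIM` and
`S_FLW`, so `σ i ~ σ (i+1)` for all `i + 1 < n`, and `l = (List.range n).map σ`. -/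
def S_LOW : Prop := ∀ {V : Type} [Fintype V] (G : SimpleGraph V) (z : V) (m : ℕ), Hyp G z m →
  ∀ (D : Layout G) (k : ℕ), D.BcLe k → m ≤ 2 * k ∧ (m = 2 * k → HP G z)

/-! ### Part B -/

/-- **(PSI)** Elementary facts on `psi`, `pp`, `cp`.

Proof. `‖psi t y‖² = ((1 - y)² + 4 t²) / (1 + y)² = 1 - 4 (y - t²) / (1 + y)²`. `psi` is injective
for `y > -1` (the real part gives `y`). With `y(t) = (a + b) t - a b` one has
`y(t) - t² = (t - a) (b - t) ≥ 0` on `[a, b]`, so `1 + y(t) > 0`, and
`(1 - λ) cp a b s + λ cp a b t = cp a b u` with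
`u = ((1 - λ) s / (1 + y(s)) + λ t / (1 + y(t))) / ((1 - λ) / (1 + y(s)) + λ / (1 + y(t)))`
(the map is projective), a bijection of `λ ∈ [0, 1]` and `u ∈ [s, t]`. -/
def S_PSI : Prop :=
  (∀ x, ‖pp x‖ = 1) ∧ Function.Injective pp ∧
  (∀ t y, t * t < y → ‖psi t y‖ < 1) ∧
  (∀ t y t' y', t * t ≤ y → t' * t' ≤ y' → psi t y = psi t' y' → t = t' ∧ y = y') ∧
  (∀ a b, cp a b a = pp a ∧ cp a b b = pp b) ∧
  ∀ a b, a < b → ∀ s t, a ≤ s → s ≤ t → t ≤ b →
    cp a b '' Set.Icc s t = segment ℝ (cp a b s) (cp a b t)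

/-- **(MT)** Common points of two chords. (Uses `S_PSI`.)

Proof. A point of `segment (pp a) (pp b)` is `cp a b t`, `t ∈ [a, b]`; if its norm is less than `1`
then `t ≠ a, b`. `cp a b t = cp c d t'` gives `t = t'` and equal heights (`psi` is injective, the
heights are `≥ t²`). Conversely `(a + b) t - a b - t² = (t - a) (b - t) > 0`. -/
def S_MT : Prop := ∀ a b c d : ℝ, a < b → c < d → ∀ p : ℂ,
  (p ∈ segment ℝ (pp a) (pp b) ∧ p ∈ segment ℝ (pp c) (pp d) ∧ ‖p‖ < 1) ↔
  ∃ t, a < t ∧ t < b ∧ c < t ∧ t < d ∧ (a + b) * t - a * b = (c + d) * t - c * d ∧ p = cp a b t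

/-- **(STR)** Straight line layouts. (Uses `S_PSI`, `S_MT`.)

Proof. `pt v = pp (x v)`, `cur e` the segment (`Sym2.lift`), `γ` the affine parametrization; the
open segment between two distinct points of the circle is in the open disk (strict convexity, or
`S_PSI`). By `S_MT` the common points in the open disk of the edges with the ends `a < b` and `c < d`
(positions) are the `cp a b t` with `(a + b) t - a b = (c + d) t - c d`, a linear equation for `t`
which has at most one solution unless `a + b = c + d`, `a b = c d`, i.e. `{a, b} = {c, d}`. If the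
edges have a common end, e.g. `a = c`, then `(t - a) (b - t) = (t - a) (d - t)` gives `b = d`.
`three`: if the edges are adjacent use `adj`, otherwise `t` solves the three equations
`y = (a + b) t - a b` etc., and `conc` is the determinant of this system with the solution
`(y, -t, 1)`, so `conc = 0`. `cross`: the affine function
`F(w) = (1 - ab) Re w + (a + b) Im w - (1 + ab)` vanishes at `pp a`, `pp b`
(`F(psi t y) (1 + y) = - 2 (y - (a + b) t + a b)`), and the points of the closed disk with `F = 0`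
are those of the segment `cur e`. So `F` does not vanish on the connected set `K`, and has a
constant sign there; but `F(pp c)`, `F(pp d)` have opposite signs: `F` is affine and vanishes at the
common point of the two segments, which is strictly between `pp c` and `pp d`, and
`F(pp c) ≠ 0 ≠ F(pp d)`. -/
def S_STR : Prop := ∀ {V : Type} (G : SimpleGraph V) (x : V → ℝ), Function.Injective x →
  (∀ a b c d e f : V, [a, b, c, d, e, f].Nodup →
    conc (x a) (x b) (x c) (x d) (x e) (x f) ≠ 0) →
  ∃ D : Layout G, D.Straight ∧ ∀ v, D.pt v = pp (x v)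

/-- **(REG)** The region of a bundled crossing of one edge with consecutive edges.

Proof. `I = segment p q` is contained in `cur e` (a segment) and in the open disk. Finitely many
compact sets are disjoint from `I`: the edges which do not meet `I`, and the crossings of two edges
which are not in `I` (finitely many, `once`). So there is `ε > 0` such that `R = cthickening ε I` is
disjoint from all of them. `R` is convex and compact and has interior points, the edges are
segments, so `cur f ∩ R` is convex, hence connected. A crossing in `R` is in `I`. The homeomorphism: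
`exists_homeomorph_image_interior_closure_frontier_eq_unitBall` (Mathlib, convex bodies). -/
def S_REG : Prop := ∀ {V : Type} [Finite V] {G : SimpleGraph V} (D : Layout G), D.Straight →
  ∀ e ∈ G.edgeSet, ∀ p ∈ D.cur e, ∀ q ∈ D.cur e, ‖p‖ < 1 → ‖q‖ < 1 →
  ∃ R : Set ℂ, (∃ h : ℂ ≃ₜ ℂ, h '' closedBall 0 1 = R) ∧
    (∀ f ∈ G.edgeSet, IsPreconnected (D.cur f ∩ R)) ∧
    (∀ f ∈ G.edgeSet, (D.cur f ∩ R).Nonempty → (D.cur f ∩ segment ℝ p q).Nonempty) ∧
    ∀ f g r, D.CrossAt f g r → (r ∈ R ↔ r ∈ segment ℝ p q)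

/-- **(POS)** Generic positions which grow fast.

Proof. For pairwise distinct `a, b, c, d, e` the polynomial `f ↦ conc a b c d e f` has degree `≤ 1`
and is not zero: at `f = a` it is `- (e - b) (a - c) (a - d)`, so it has at most one zero. Up to the
sign `conc` is invariant under `a ↔ b`, `c ↔ d`, `e ↔ f` and the permutations of the three pairs.
So if a finite set of numbers is generic (no zero for six distinct elements), a new number can be
added avoiding finitely many values. Choose `u 1`, `u 2 > 4 u 1`, ..., `u n`, and then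
`u 0 < - u n`. -/
def S_POS : Prop := ∀ n : ℕ, ∃ u : ℕ → ℝ, 0 < u 1 ∧
  (∀ i, 1 ≤ i → i < n → 4 * u i < u (i + 1)) ∧ (1 ≤ n → u 0 < - u n) ∧
  ∀ a b c d e f : ℕ, [a, b, c, d, e, f].Nodup → (∀ i ∈ [a, b, c, d, e, f], i ≤ n) →
    conc (u a) (u b) (u c) (u d) (u e) (u f) ≠ 0

/-- **(ORD)** The order of the crossings on a chord `(L, A)`: the crossings with the chords
`(K, B)`, `K < L < B < A`, come before `2 L`, the crossings with the star and with the chords
`(I, J)`, `L < I < A < J`, after `2 L`.

Proof. Multiply with the positive denominators: (1) `0 < 2 L² + L A - 2 L K - 2 L B + K B`,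
(2) `2 L² + L A - 2 L W + y (W - 2 L) < 0`, (3) `0 < I J + L A - 2 L I - 2 L J + 2 L²`. -/
def S_ORD : Prop :=
  (∀ L A K B t : ℝ, 0 < K → K < L → 4 * L < B → 4 * B < A →
    (L + A) * t - L * A = (K + B) * t - K * B → t < 2 * L) ∧
  (∀ L A y W t : ℝ, 0 < L → 4 * L < W → W < A → y ≤ - A →
    (L + A) * t - L * A = (y + W) * t - y * W → 2 * L < t) ∧
  (∀ L A I J t : ℝ, 0 < L → 4 * L < I → I < A → A < J →
    (L + A) * t - L * A = (I + J) * t - I * J → 2 * L < t)

/-- **(HSK)** The number of edges which are not in the path.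

Proof. `2 |E(G)| = ∑ deg v` (`SimpleGraph.sum_degrees_eq_twice_card_edges`, classical instances;
`degree = ncard of neighborSet`), `deg z = n`, and for `v ≠ z` the degree is `2`, `3` or `4`, with
`2`, `n - 2 - 2 k` and `2 k` vertices. So `2 |E(G)| = n + 4 + 3 (n - 2 - 2 k) + 8 k = 4 n - 2 + 2 k`,
`|E(G)| = 2 n - 1 + k`. The edges of `G` are the `n` edges at `z`, the `n - 1` edges of the path,
and the edges `σ i σ j` with `i + 1 < j < n`. -/
def S_HSK : Prop := ∀ {V : Type} [Fintype V] (G : SimpleGraph V) (z : V) (k : ℕ),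
  Hyp G z (2 * k) → ∀ (n : ℕ) (σ : ℕ → V), (∀ i < n, σ i ≠ z) →
  (∀ i < n, ∀ j < n, σ i = σ j → i = j) → (∀ v, v ≠ z → ∃ i < n, σ i = v) →
  (∀ i, i + 1 < n → G.Adj (σ i) (σ (i + 1))) →
  {p : ℕ × ℕ | p.1 + 1 < p.2 ∧ p.2 < n ∧ G.Adj (σ p.1) (σ p.2)}.ncard = k

/-- **(UPP)** The upper bound. (Uses `S_PSI`, `S_MT`, `S_STR`, `S_REG`, `S_POS`, `S_ORD`, `S_HSK`.)

Proof. Let `σ 0, ..., σ (n-1)` be the Hamiltonian path, `u` from `S_POS` for `n`, `x z = u 0`,
`x (σ i) = u (i + 1)`; `x` is injective (`u 0 < 0 < u 1 < ...`). `D` from `S_STR`. By `S_MT` two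
edges cross if and only if their positions alternate, at the point with the parameter `t`. So the
edges `σ i σ (i+1)` and the edges at `z` cross no edge of the same kind, and `σ i σ (i+1)` crosses
nothing. Let `C` be the set of `S_HSK`, with `k` elements; `Fin k ≃ C`. For `p = (l, r) ∈ C`,
`L = u (l+1)`, `A = u (r+1)`, let the bundles be `{σ l σ r}` and the set of all `z σ w`, `l < w < r`,
and `σ i σ j`, `l < i < r < j`. All of these edges cross `σ l σ r`, with a parameter `t > 2 L` by
`S_ORD`; the other edges which cross it are the `σ i σ j` with `i < l < j < r`, with a parameter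
`t < 2 L`. Region: `S_REG` for the points `cp L A (2 L)` and `cp L A T` where `T < A` is larger than
all the parameters of crossings on this edge; by `S_PSI` the segment between them is
`cp L A '' [2 L, T]`. Partition: a crossing of `σ l σ r` with a star belongs only to the bundled
crossing of `(l, r)`, the crossing of `σ l σ r` and `σ i σ j`, `l < i < r < j`, to that of `(l, r)`
and not to that of `(i, j)`. -/
def S_UPP : Prop := ∀ {V : Type} [Fintype V] (G : SimpleGraph V) (z : V) (k : ℕ),
  Hyp G z (2 * k) → HP G z → ∃ D : Layout G, D.Straight ∧ D.BcLe k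

/-! ### Part C -/

/-- `nb` gives the lists of neighbours of a graph on `vs`, `code` is an injective coding. -/
structure Lok {T : Type} (vs : List T) (nb : T → List T) (code : T → ℕ) : Prop where
  nodup : vs.Nodup
  sub : ∀ u ∈ vs, ∀ v ∈ nb u, v ∈ vs
  symm : ∀ u ∈ vs, ∀ v ∈ nb u, u ∈ nb v
  irr : ∀ u ∈ vs, u ∉ nb u
  nbd : ∀ u ∈ vs, (nb u).Nodup
  inj : ∀ u ∈ vs, ∀ v ∈ vs, code u = code v → u = v
  pos : ∀ u ∈ vs, code u ≠ 0

/-- **(TRF)** From neighbour lists to the coded graph with the additional vertex `0`.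

Proof. The vertices of `gr (lst vs nb code)` are `0` and the `code u`, `u ∈ vs`. `z = 0` is adjacent
to all `code u`, and `code u`, `code v` are adjacent if and only if `v ∈ nb u`. So the number of
neighbours of `code u` is `(nb u).length + 1`. A Hamiltonian path of `G - z` is the image of a list
`l` with `l.Perm vs` under `code`. -/
def S_TRF : Prop := ∀ {T : Type} (vs : List T) (nb : T → List T) (code : T → ℕ) (m : ℕ),
  Lok vs nb code → vs ≠ [] → (∀ u ∈ vs, 1 ≤ (nb u).length ∧ (nb u).length ≤ 3) →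
  (vs.countP fun u => (nb u).length = 1) = 2 → (vs.countP fun u => (nb u).length = 3) = m →
  ∃ z, z.1 = 0 ∧ Hyp (gr (lst vs nb code)) z m ∧
    (HP (gr (lst vs nb code)) z ↔ ∃ l : List T, l.Perm vs ∧ l.IsChain fun u v => v ∈ nb u)

/-- **(OK)** The graph of a system of triples.

Proof. Check all cases. Facts: `I.fst (i, b)` is the smallest slot `< 3 M` with the literal
`(i, b)`, `I.lst (i, b)` the largest one (they exist by `occ`), `I.prv t = x t' 3` with the largest
slot `t' < t` with the same literal, or `A i` if there is none, i.e. `t = I.fst (I.at' t)`, and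
similarly for `I.nxt t`; so `I.nxt t' = x t 0` if and only if `I.prv t = x t' 3`. Lengths of `nb`:
`1` for `s`, `e`; `2` for `m`, `w`, `r`; `3` for the others: `2 N + 6 M + 24 M`. -/
def S_OK : Prop := ∀ I : X3, I.Ok → Lok I.vs I.nb code ∧ I.vs ≠ [] ∧
  (∀ u ∈ I.vs, 1 ≤ (I.nb u).length ∧ (I.nb u).length ≤ 3) ∧
  (I.vs.countP fun u => (I.nb u).length = 1) = 2 ∧
  (I.vs.countP fun u => (I.nb u).length = 3) = 2 * (I.N + 15 * I.M)

/-- **(PTH)** The edges of a Hamiltonian path from a leaf to a leaf.

Proof. `U u v`: `u`, `v` are consecutive in `l` (in one of the two orders). An element of `l` which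
is not the first or the last one has exactly two `U`-neighbours (distinct, as `l` has no
duplicates), and they are in `nb u`; the first and the last element have one (`l` has at least two
elements). As `nb s`, `nb e` have length one, `s` and `e` are the first and the last element. The
six elements of a cycle would have distinct positions in `l`, consecutive ones at distance one: the
two neighbours of the one with the largest position would have the same position. -/
def S_PTH : Prop := ∀ {T : Type} (vs l : List T) (nb : T → List T) (s e : T), vs.Nodup →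
  (∀ u ∈ vs, ∀ v ∈ nb u, v ∈ vs ∧ u ∈ nb v) → l.Perm vs → (l.IsChain fun u v => v ∈ nb u) →
  s ∈ vs → e ∈ vs → s ≠ e → (∃ a, nb s = [a]) → (∃ a, nb e = [a]) →
  ∃ U : T → T → Prop, (∀ u v, U u v → U v u) ∧ (∀ u v, U u v → v ∈ nb u) ∧
    (∀ u ∈ vs, u ≠ s → u ≠ e → ∃ p q, p ≠ q ∧ ∀ v, U u v ↔ v = p ∨ v = q) ∧
    (∃ a, U s a) ∧ (∃ a, U e a) ∧
    ∀ a b c d f g : T, [a, b, c, d, f, g].Nodup → U a b → U b c → U c d → U d f → U f g →
      U g a → False

/-- **(NO)** A Hamiltonian path gives a solution. (Uses `S_OK`, `S_PTH`.)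

Proof. `U` from `S_PTH`. For `u ≠ s, e` with `nb u = [a, b]`: `U u a`, `U u b`; with
`nb u = [a, b, c]` (distinct): exactly two of `U u a`, `U u b`, `U u c`. (1) The ladder `t`: the
edges at `r t k` are used, so exactly one of the other two edges at `x t k` and at `y t k` is used,
`k = 0, 1, 2, 3`. So `p t := U (x t 0) (prv t) ↔ ¬ U (x t 0) (x t 1) ↔ U (x t 1) (x t 2) ↔
¬ U (x t 2) (x t 3) ↔ U (x t 3) (nxt t)`, and `q t := U (y t 0) (c (t / 3))` in the same way. Not
`p t ∧ q t`: then `x1 r1 y1 y2 r2 x2` is a cycle; not `¬ p t ∧ ¬ q t`: `x0 r0 y0 y1 r1 x1` is a cycle.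
So `p t ↔ ¬ q t`. (2) The routes: `p t ↔ P i b := U (A i) (x (fst (i, b)) 0)` for all slots `t` with
the literal `(i, b)`, by strong induction on `t`: if `prv t = A i` then `t = fst (i, b)`; otherwise
`prv t = x t' 3`, `nxt t' = x t 0`, so `p t ↔ p t'`. (3) At `A i`: the edge to `s` or `m (i - 1)`
is used (`m` has two neighbours; for `s` the edge exists by `S_PTH`), so exactly one of
`P i true`, `P i false`. Let `v i = true` iff `P i true`; so `P i b ↔ v i = b`. (4) At `c j` exactly
two of `q (3 j + r)`, `r = 0, 1, 2`, so exactly one of `p (3 j + r)`. -/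
def S_NO : Prop := ∀ I : X3, I.Ok → ∀ l : List Tk, l.Perm I.vs →
  (l.IsChain fun u v => v ∈ I.nb u) → ∃ v, I.Sol v

/-- passing the ladder `t` from the side of the route -/
def trx (t : ℕ) : List Tk :=
  [.x t 0, .r t 0, .y t 0, .y t 1, .r t 1, .x t 1, .x t 2, .r t 2, .y t 2, .y t 3, .r t 3, .x t 3]

/-- passing the ladder `t` from the side of the triple -/
def try' (t : ℕ) : List Tk :=
  [.y t 0, .r t 0, .x t 0, .x t 1, .r t 1, .y t 1, .y t 2, .r t 2, .x t 2, .x t 3, .r t 3, .y t 3]

/-- the part of the path in the triple `j`, whose literal number `r` is true -/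
def seg (j r : ℕ) : List Tk :=
  if r = 0 then [.X j, .d j, .b j] ++ (try' (3 * j + 2)).reverse ++ [.c j] ++ try' (3 * j + 1) ++
    [.a j, .Y j]
  else if r = 1 then [.X j] ++ (try' (3 * j)).reverse ++ [.c j] ++ try' (3 * j + 2) ++
    [.b j, .d j, .a j, .Y j]
  else [.X j] ++ (try' (3 * j)).reverse ++ [.c j] ++ try' (3 * j + 1) ++ [.a j, .d j, .b j, .Y j]

/-- the number of the first true literal of the triple `j` -/
def trv (I : X3) (v : ℕ → Bool) (j : ℕ) : ℕ :=
  if v (I.at' (3 * j)).1 = (I.at' (3 * j)).2 then 0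
  else if v (I.at' (3 * j + 1)).1 = (I.at' (3 * j + 1)).2 then 1 else 2

/-- the path given by a solution -/
def pth (I : X3) (v : ℕ → Bool) : List Tk :=
  [.s] ++ (List.range I.N).flatMap (fun i =>
      [.A i] ++ (I.oc (3 * I.M) (i, v i)).flatMap trx ++ [.B i, .m i]) ++
    (List.range I.M).flatMap (fun j => seg j (trv I v j) ++ [.w j]) ++ [.e]

/-- **(YESC)** The path is a path.

Proof. Inside `trx`, `try'`, `seg` check the neighbour lists. In the route `i` the list
`oc (3 M) (i, v i)` is increasing and nonempty, its first element is `fst (i, v i)`, its last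
element `lst (i, v i)`, and for consecutive elements `t, t'` one has `nxt t = x t' 0`. -/
def S_YESC : Prop := ∀ I : X3, I.Ok → ∀ v, I.Sol v →
  (pth I v).IsChain fun u w => w ∈ I.nb u

/-- **(YESP)** The path visits every vertex once.

Proof. E.g. every element of `vs` is in `pth` (a vertex of the ladder `t = 3 j + r` is in `trx t` if
the literal is true, and otherwise `try' t` is a part of `seg j _`, because the true literal of the
triple is the number `trv I v j` and `r` is a different one), and the lengths agree: a list without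
duplicates which is contained in a list of the same length is a permutation of it
(`List.subperm_of_subset`, `List.Subperm.perm_of_length_le`). Lengths:
`vs`: `2 + 3 N + 7 M + 36 M`; `pth`: `2 + 3 N + 12 #{t < 3 M | literal t true} + M (7 + 24)`, and
`#{...} = M`. -/
def S_YESP : Prop := ∀ I : X3, I.Ok → ∀ v, I.Sol v → (pth I v).Perm I.vs

end Pool.Agent.MPafd87c
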