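import Pool.Agent.Lib.MP_afd87c_lc.BC.Stm
import Pool.Agent.Lib.MP_e32f22_lc.Comp
import Pool.Agent.Lib.MP_a28c52_lc.Final

/-!
# Bundled crossings: the reduction from satisfiability, and the main statement
-/

set_option autoImplicit false

namespace Pool.Agent.MPafd87c

open N68a2faeb CookLevin
open Pool.Agent.Lib.MP_e32f22_lc (wd nv pl)

/-- **The main result.** Deciding whether a graph has a simple circular layout whose crossings can
be partitioned into at most `k` bundled crossings is NP-hard, and the same for straight line
layouts: for every problem `L` in NP there are polynomial-time functions `f`, `k` such that `x` is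
in `L` if and only if the graph with the list of edges `f x` has such a layout for `k x`. -/
def BundledCrossingsNPHard : Prop :=
  ∀ L ∈ NP, ∃ (f : List Bool → List (ℕ × ℕ)) (k : List Bool → ℕ),
    IsPolyTime f ∧ IsPolyTime k ∧ ∀ x,
      (L x = true ↔ ∃ D : Layout (gr (f x)), D.BcLe (k x)) ∧
      (L x = true ↔ ∃ D : Layout (gr (f x)), D.Straight ∧ D.BcLe (k x))

/-- the triples for the slot `i` of the clause `j` with the (padded) literal `pl φ j i`;
`w = wd φ`, `n = nv φ`, the slot has the number `s = j * w + i` and the variables
`n + 1 + 3 * s` (chosen), `n + 2 + 3 * s` (still to choose after the slot), `n + 3 + 3 * s` -/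
def slot (w n : ℕ) (l : ℕ × Bool) (j i : ℕ) : List (ℕ × Bool) :=
  [if i = 0 then (0, true) else (n + 2 + 3 * (j * w + i - 1), false),
    (n + 1 + 3 * (j * w + i), true),
    if i + 1 = w then (0, true) else (n + 2 + 3 * (j * w + i), true),
    (n + 1 + 3 * (j * w + i), true), (1 + l.1, !l.2), (n + 3 + 3 * (j * w + i), true)]

/-- the number of variables of `x3` -/
def nvar (φ : Cnf) : ℕ := nv φ + 1 + 3 * (φ.length * wd φ)

/-- The system of triples of a formula: `0` is a variable which must be false, `1 + x` is the
variable `x` of the formula. -/
def x3 (φ : Cnf) : X3 where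
  N := nvar φ
  M := nvar φ + 2 * (φ.length * wd φ)
  lit := [(0, false), (0, true), (0, true)] ++
    (List.range (nvar φ - 1)).flatMap (fun i => [(i + 1, true), (i + 1, false), (0, true)]) ++
    (List.range φ.length).flatMap (fun j => (List.range (wd φ)).flatMap fun i =>
      slot (wd φ) (nv φ) (pl φ j i) j i)

/-- **(X3F)** The system of triples is well-formed, and solvable if and only if the formula is
satisfiable. (Facts on `wd`, `nv`, `pl` are in Lib/MP_e32f22_lc/Red.lean: `pl_mem`, `lt_nv`,
`length_le_wd`; `pl φ j i` for `i < length` is the literal number `i` of the clause `j`, and for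
larger `i` the literal number `0`.)

Proof. Ok: lengths `3 (1 + (nvar - 1) + 2 length wd)`; all variables are `< nvar`
(`pl φ j i` is a literal of the clause, `lt_nv`); every literal occurs in the first two parts.
Let `v` be a solution. The first triple gives `v 0 = false`. For a clause `j` and the slot `i` let
`y_i = v (n+1+3s)`, `t_i = v (n+2+3s)` for `i + 1 < w`, `t_i = false` for `i + 1 = w`,
`t_{-1} = true`. The first triple of the slot says: exactly one of `¬ t_{i-1}`, `y_i`, `t_i` is
true. If all `y_i` were false then by induction all `t_i` would be true, but the last one is false.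
So some `y_i` is true, and then the second triple of the slot gives that the negation of the literal
`pl φ j i` is false, so `τ x = v (1 + x)` satisfies a literal of the clause `j`. Conversely let `τ`
satisfy `φ`. Let `v 0 = false`, `v (1 + x) = τ x` for `x < n`, and for the clause `j` let `i₀` be the
first `i < w` such that `pl φ j i` is true; `y_i = (i = i₀)`, `t_i = (i < i₀)`, and the third
variable of the slot is true if and only if `y_i` is false and the literal `pl φ j i` is true. -/
def S_X3F : Prop := ∀ φ : Cnf, φ ≠ [] → (∀ cl ∈ φ, cl ≠ []) →
  (x3 φ).Ok ∧ ((∃ v, (x3 φ).Sol v) ↔ Sat φ)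

/-- **(FP)** The reduction can be computed in polynomial time.

Proof. As in Lib/MP_e32f22_lc/Comp.lean (`FP.cols`, `FP.btoks`, ...) and the end of
Results/MP_e32f22_lc/ShortestIsNPHard.lean: write the list as a composition of `flatMap`, `map`,
`filter`, `range`, `getD`, arithmetic and `if` on numbers and literals (without the type `Tk`:
replace every constructor by its code), prove that this is `lst (x3 φ).vs (x3 φ).nb code`, and apply
`fun_prop`; finally code the numbers in binary (`BN.mk`, `agree_pair`, `agree_list`, `FP.bn`) and
use `HerCo.Cp.toTM2`. -/
def S_FP : Prop := ∀ f : List Bool → Cnf, HerCo.FP .poly f →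
  IsPolyTime (fun x => lst (x3 (f x)).vs (x3 (f x)).nb code) ∧
  IsPolyTime (fun x => (x3 (f x)).N + 15 * (x3 (f x)).M)

end Pool.Agent.MPafd87c
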